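import Pool.Agent.Y108.KC.Ngt0

/-! # Covers with a one-parameter group are not of log general type: the derivation -/

set_option autoImplicit false

namespace Pool.Agent.Y108.KC

open MvPolynomial FF Pool.Agent.W602.GT IntermediateField

variable {L : Type} [Field L] [Algebra ℂ L]

theorem charL : CharZero L := charZero_of_injective_algebraMap (algebraMap ℂ L).injective

theorem Eig.root {D : Derivation ℂ L L} {f : L} (hf : f ≠ 0) {e : ℕ} (he : 0 < e) {a : ℤ}
    (h : Eig D (e * a) (f ^ e)) : Eig D a f := by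
  have := charL (L := L)
  unfold Eig at *
  rw [D.leibniz_pow] at h
  obtain ⟨e', rfl⟩ : ∃ e', e = e' + 1 := ⟨e - 1, by omega⟩
  simp only [Nat.add_sub_cancel, nsmul_eq_mul, smul_eq_mul] at h
  have h1 : (((e' + 1 : ℕ) : L) * f ^ e') ≠ 0 :=
    mul_ne_zero (by exact_mod_cast Nat.succ_ne_zero e') (pow_ne_zero _ hf)
  apply mul_left_cancel₀ h1
  rw [mul_assoc, h, pow_succ]
  push_cast
  ring

/-- algebraic over the field of the `t i / t 0` -/
theorem basis_of_gen {n r : ℕ} (y : Fin n → L) (hy : AlgebraicIndependent ℂ y)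
    (z : Fin (n + 1) → L) (hz0 : z 0 = 1) (hz : ∀ i : Fin n, z i.succ = y i)
    (ρ : Fin r → L) (e : Fin r → ℕ) (he : ∀ j, 0 < e j) (P : Fin r → MvPolynomial (Fin (n + 1)) ℂ)
    (hρ : ∀ j, ρ j ^ e j = aeval z (P j))
    (gen : IntermediateField.adjoin ℂ (Set.range z ∪ Set.range ρ) = ⊤) :
    IsTranscendenceBasis ℂ y := by
  set E := IntermediateField.adjoin ℂ (Set.range y) with hE
  have hzE : ∀ i, z i ∈ E := by
    intro i
    refine Fin.cases ?_ (fun i => ?_) i
    · rw [hz0]; exact one_mem _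
    · rw [hz]; exact IntermediateField.subset_adjoin _ _ ⟨i, rfl⟩
  have hPE : ∀ A : MvPolynomial (Fin (n + 1)) ℂ, aeval z A ∈ E := by
    intro A
    rw [aeval_def, eval₂_eq']
    refine sum_mem fun c _ => mul_mem (E.algebraMap_mem _) (prod_mem fun i _ => pow_mem (hzE i) _)
  have halg : Algebra.IsAlgebraic E L := by
    constructor
    intro x
    have h1 : (⊤ : IntermediateField ℂ L) ≤ (algebraicClosure E L).restrictScalars ℂ := by
      rw [← gen, IntermediateField.adjoin_le_iff]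
      rintro _ (⟨i, rfl⟩ | ⟨j, rfl⟩)
      · change z i ∈ algebraicClosure E L
        rw [mem_algebraicClosure_iff]
        exact isAlgebraic_algebraMap (⟨z i, hzE i⟩ : E)
      · change ρ j ∈ algebraicClosure E L
        rw [mem_algebraicClosure_iff]
        refine IsAlgebraic.of_pow (he j) ?_
        rw [hρ]
        exact isAlgebraic_algebraMap (⟨_, hPE (P j)⟩ : E)
    have h2 : x ∈ (algebraicClosure E L).restrictScalars ℂ := h1 IntermediateField.mem_top
    exact mem_algebraicClosure_iff.1 h2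
  rw [hy.isTranscendenceBasis_iff_isAlgebraic]
  exact alg_adjoin halg

theorem core {n r m : ℕ} (hm : 0 < m) (t : Fin (n + 1) → L) (w : Fin r → L)
    (F : Fin r → MvPolynomial (Fin (n + 1)) ℂ) (d e : Fin r → ℕ)
    (G : MvPolynomial (Fin (n + 1)) ℂ) (q : ℕ) (hF : ∀ j, (F j).IsHomogeneous (d j))
    (hF0 : ∀ j, F j ≠ 0) (he : ∀ j, 0 < e j) (hG : G.IsHomogeneous q) (hG0 : G ≠ 0)
    (hem : ∀ j, e j ∣ m) (ne : t 0 ≠ 0)
    (ind : AlgebraicIndependent ℂ (fun i : Fin n => t i.succ / t 0))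
    (eqn : ∀ j, w j ^ e j = aeval (fun i => t i ^ m) (F j))
    (gen : IntermediateField.adjoin ℂ (Set.range (fun i => t i / t 0) ∪
      Set.range (fun j => w j / t 0 ^ (m * d j / e j))) = ⊤)
    (l : Fin (n + 1) → ℤ) (hl : ∃ i j, l i ≠ l j) (kG : ℤ)
    (hkG : ∀ c ∈ G.support, ∑ i, l i * c i = kG) (H S : Fin r → MvPolynomial (Fin (n + 1)) ℂ)
    (hFS : ∀ j, F j = H j * S j ^ e j) (kH : Fin r → ℤ)
    (hkH : ∀ j, ∀ c ∈ (H j).support, ∑ i, l i * c i = kH j) :
    ∃ (δ : Derivation ℂ L L) (σ : L), σ ≠ 0 ∧ δ σ = σ ∧ (consts δ)⟮σ⟯ = ⊤ ∧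
      ∀ P : Place ℂ L, (∀ c, δ c = 0 → c ≠ 0 → P.ord c = 0) → P.ord σ = 0 →
        (∀ i, P.ord (t i) = P.ord (t 0)) ∧
        P.ord (aeval (fun i => t i ^ m) G) = m * q * P.ord (t 0) := by
  classical
  have hchar := charL (L := L)
  set z : Fin (n + 1) → L := fun i => t i / t 0 with hz
  set y : Fin n → L := fun i => t i.succ / t 0 with hy
  have hz0 : z 0 = 1 := div_self ne
  have hzs : ∀ i : Fin n, z i.succ = y i := fun i => rfl
  have hzne : ∀ i, z i ≠ 0 := by
    intro i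
    refine Fin.cases ?_ (fun i => ?_) i
    · rw [hz0]; exact one_ne_zero
    · rw [hzs]; exact ind.ne_zero i
  have htz : ∀ i, t i = t 0 * z i := fun i => by rw [hz]; field_simp
  have htm : (fun i => t i ^ m) = fun i => t 0 ^ m * z i ^ m := by
    funext i; conv_lhs => rw [htz i]
    rw [mul_pow]
  set ρ' : Fin r → L := fun j => w j / t 0 ^ (m * d j / e j) with hρ'
  have hwt : ∀ j, m * d j / e j * e j = m * d j := fun j =>
    Nat.div_mul_cancel ((hem j).mul_right _)
  have hρe : ∀ j, ρ' j ^ e j = aeval (fun i => z i ^ m) (F j) := by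
    intro j
    rw [hρ']
    simp only
    rw [div_pow, ← pow_mul, hwt, eqn, htm, hom_aeval (hF j), ← pow_mul]
    have : t 0 ^ (m * d j) ≠ 0 := pow_ne_zero _ ne
    field_simp
  have hFz : ∀ j, aeval (fun i => z i ^ m) (F j) ≠ 0 := fun j =>
    nz hm (hF j) (hF0 j) y ind z hz0 hzs
  have hGz : aeval (fun i => z i ^ m) G ≠ 0 := nz hm hG hG0 y ind z hz0 hzs
  have hexp : ∀ A : MvPolynomial (Fin (n + 1)) ℂ, aeval (fun i => z i ^ m) A =
      aeval z (expand m A) := by
    intro A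
    induction A using MvPolynomial.induction_on with
    | C c => simp
    | add p q hp hq => rw [map_add, map_add, map_add, hp, hq]
    | mul_X p i hp => rw [map_mul, map_mul, map_mul, hp]; simp
  have hbasis : IsTranscendenceBasis ℂ y :=
    basis_of_gen y ind z hz0 hzs ρ' e he (fun j => expand m (F j))
      (fun j => by rw [hρe, hexp]) gen
  obtain ⟨D, hD⟩ := exists_der y hbasis (fun i => ((l i.succ - l 0 : ℤ) : L) * y i)
  have hDz : ∀ i, Eig D (l i - l 0) (z i) := by
    intro i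
    refine Fin.cases ?_ (fun i => ?_) i
    · rw [hz0, sub_self]; exact Eig.one
    · rw [hzs]; exact hD i
  have hDzm : ∀ i, Eig D (m * (l i - l 0)) (z i ^ m) := fun i => (hDz i).pow m
  have hDA : ∀ (A : MvPolynomial (Fin (n + 1)) ℂ) (kA : ℤ) (dA : ℕ), A.IsHomogeneous dA →
      (∀ c ∈ A.support, ∑ i, l i * c i = kA) →
      Eig D (m * (kA - l 0 * dA)) (aeval (fun i => z i ^ m) A) := by
    intro A kA dA hA hkA
    refine Eig.aeval hDzm fun c hc => ?_
    have h1 := hkA c hc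
    have h2 := sum_of_hom hA hc
    have h3 : ∑ i, (c i : ℤ) = dA := by exact_mod_cast h2
    calc ∑ i, m * (l i - l 0) * (c i : ℤ)
        = m * (∑ i, l i * c i - l 0 * ∑ i, (c i : ℤ)) := by
          rw [Finset.mul_sum, ← Finset.sum_sub_distrib, Finset.mul_sum]
          exact Finset.sum_congr rfl fun i _ => by ring
      _ = _ := by rw [h1, h3]
  -- the functions `w'`
  set w' : Fin r → L := fun j => ρ' j / aeval (fun i => z i ^ m) (S j) with hw'
  have hFHS : ∀ j, aeval (fun i => z i ^ m) (F j) =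
      aeval (fun i => z i ^ m) (H j) * aeval (fun i => z i ^ m) (S j) ^ e j := by
    intro j
    conv_lhs => rw [hFS j]
    rw [map_mul, map_pow]
  have hHz : ∀ j, aeval (fun i => z i ^ m) (H j) ≠ 0 := fun j =>
    left_ne_zero_of_mul (hFHS j ▸ hFz j)
  have hSz : ∀ j, aeval (fun i => z i ^ m) (S j) ≠ 0 := fun j =>
    (pow_ne_zero_iff (he j).ne').1 (right_ne_zero_of_mul (hFHS j ▸ hFz j))
  have hw'e : ∀ j, w' j ^ e j = aeval (fun i => z i ^ m) (H j) := by
    intro j
    rw [hw']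
    simp only
    rw [div_pow, hρe, hFHS]
    field_simp [hSz j]
  have hw'0 : ∀ j, w' j ≠ 0 := fun j h => hHz j (by rw [← hw'e, h, zero_pow (he j).ne'])
  set cj : Fin r → ℤ := fun j => ((m / e j : ℕ) : ℤ) * (kH j - l 0 * (H j).totalDegree) with hcj
  have hDw : ∀ j, Eig D (cj j) (w' j) := by
    intro j
    refine Eig.root (hw'0 j) (he j) ?_
    rw [hw'e]
    have h1 : (e j : ℤ) * cj j = m * (kH j - l 0 * (H j).totalDegree) := by
      have h2 : ((m / e j : ℕ) : ℤ) * e j = m := by exact_mod_cast Nat.div_mul_cancel (hem j)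
      rw [hcj]
      simp only
      rw [← mul_assoc, mul_comm (e j : ℤ), h2]
    rw [h1]
    exact hDA _ _ _ (homog_of_dvd (hF j) (hF0 j) ⟨S j ^ e j, hFS j⟩) (hkH j)
  -- all generators and their weights
  set ρ : Fin (n + 1) ⊕ Fin r → L := Sum.elim z w' with hρ
  set a : Fin (n + 1) ⊕ Fin r → ℤ := Sum.elim (fun i => l i - l 0) cj with ha
  have hρ0 : ∀ x, ρ x ≠ 0 := by
    rintro (i | j)
    · exact hzne i
    · exact hw'0 j
  have hDρ : ∀ x, Eig D (a x) (ρ x) := by
    rintro (i | j)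
    · exact hDz i
    · exact hDw j
  obtain ⟨g, hg⟩ : ∃ g : ℤ, Ideal.span (Set.range a) = Ideal.span {g} :=
    (IsPrincipalIdealRing.principal (Ideal.span (Set.range a))).principal
  have hdvd : ∀ x, g ∣ a x := by
    intro x
    rw [← Ideal.mem_span_singleton, ← hg]
    exact Ideal.subset_span ⟨x, rfl⟩
  have hg0 : g ≠ 0 := by
    rintro rfl
    obtain ⟨i, j, hij⟩ := hl
    have h1 := hdvd (Sum.inl i)
    have h2 := hdvd (Sum.inl j)
    rw [zero_dvd_iff] at h1 h2
    change l i - l 0 = 0 at h1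
    change l j - l 0 = 0 at h2
    omega
  obtain ⟨b, hb⟩ : ∃ b : Fin (n + 1) ⊕ Fin r → ℤ, ∑ x, b x * a x = g := by
    have h1 : g ∈ Ideal.span (Set.range a) := by
      rw [hg]; exact Ideal.mem_span_singleton_self g
    obtain ⟨b, hb⟩ := (Submodule.mem_span_range_iff_exists_fun ℤ).1 h1
    exact ⟨b, hb⟩
  choose β hβ using hdvd
  set σ : L := ∏ x, ρ x ^ b x with hσ
  have hσ0 : σ ≠ 0 := Finset.prod_ne_zero_iff.2 fun x _ => zpow_ne_zero _ (hρ0 x)
  have hDσ : Eig D g σ := by
    rw [← hb]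
    exact Eig.prod _ _ _ fun x _ => (hDρ x).zpow (b x)
  have hgL : (g : L) ≠ 0 := by exact_mod_cast hg0
  set δ : Derivation ℂ L L := ((g : ℂ)⁻¹) • D with hδ
  have hδD : ∀ f, δ f = (g : L)⁻¹ * D f := by
    intro f
    rw [hδ, Derivation.smul_apply, Algebra.smul_def]
    simp
  have hδσ : δ σ = σ := by
    rw [hδD, show D σ = (g : L) * σ from hDσ]
    field_simp
  have hδ0 : ∀ f, Eig D 0 f → δ f = 0 := by
    intro f hf
    rw [hδD, show D f = ((0 : ℤ) : L) * f from hf]
    simp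
  -- eigenvectors of weight `β * g`
  have hquot : ∀ (f : L) (k : ℤ), Eig D (g * k) f → δ (f / σ ^ k) = 0 := by
    intro f k hf
    apply hδ0
    rw [div_eq_mul_inv]
    have h1 := hf.mul (hDσ.zpow k).inv
    have h2 : g * k + -(k * g) = 0 := by ring
    rwa [h2] at h1
  refine ⟨δ, σ, hσ0, hδσ, ?_, ?_⟩
  · -- generation
    have hmem : ∀ (f : L) (k : ℤ), Eig D (g * k) f → f ∈ (consts δ)⟮σ⟯ := by
      intro f k hf
      have h1 : f = (f / σ ^ k) * σ ^ k := by
        have : σ ^ k ≠ 0 := zpow_ne_zero _ hσ0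
        field_simp
      rw [h1]
      refine mul_mem ?_ (zpow_mem (IntermediateField.mem_adjoin_simple_self _ _) _)
      exact (consts δ)⟮σ⟯.algebraMap_mem (⟨f / σ ^ k, hquot f k hf⟩ : consts δ)
    have hρm : ∀ x, ρ x ∈ (consts δ)⟮σ⟯ := fun x => hmem _ (β x) (by rw [← hβ]; exact hDρ x)
    have hle : (⊤ : IntermediateField ℂ L) ≤ ((consts δ)⟮σ⟯).restrictScalars ℂ := by
      rw [← gen, IntermediateField.adjoin_le_iff]
      rintro _ (⟨i, rfl⟩ | ⟨j, rfl⟩)
      · exact hρm (Sum.inl i)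
      · change ρ' j ∈ (consts δ)⟮σ⟯
        have h1 : ρ' j = w' j * aeval (fun i => z i ^ m) (S j) := by
          rw [hw']; simp only; field_simp [hSz j]
        rw [h1]
        refine mul_mem (hρm (Sum.inr j)) ?_
        rw [aeval_def, eval₂_eq']
        refine sum_mem fun c _ => mul_mem ?_ (prod_mem fun i _ =>
          pow_mem (pow_mem (hρm (Sum.inl i)) _) _)
        exact (((consts δ)⟮σ⟯).restrictScalars ℂ).algebraMap_mem _
    rw [eq_top_iff]
    intro x _
    exact hle (IntermediateField.mem_top (x := x))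
  · -- places
    intro P hP hPσ
    have hord : ∀ (f : L) (k : ℤ), f ≠ 0 → Eig D (g * k) f → P.ord f = 0 := by
      intro f k hf0 hf
      have hs : σ ^ k ≠ 0 := zpow_ne_zero _ hσ0
      have h1 := hP _ (hquot f k hf) (div_ne_zero hf0 hs)
      rw [P.ord_div hf0 hs, P.ord_zpow, hPσ] at h1
      omega
    have hti : ∀ i, P.ord (t i) = P.ord (t 0) := by
      intro i
      have h1 := hord (z i) (β (Sum.inl i)) (hzne i) (by rw [← hβ]; exact hDz i)
      rw [htz i, P.ord_mul ne (hzne i), h1, add_zero]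
    refine ⟨hti, ?_⟩
    have h1 := hDA G kG q hG hkG
    obtain ⟨c, hc⟩ := MvPolynomial.ne_zero_iff.1 hG0
    have hcs : c ∈ G.support := mem_support_iff.2 hc
    have h2 : g ∣ m * (kG - l 0 * q) := by
      refine Dvd.dvd.mul_left ?_ _
      have h3 : kG - l 0 * q = ∑ i, (l i - l 0) * (c i : ℤ) := by
        have h4 : ∑ i, (c i : ℤ) = q := by exact_mod_cast sum_of_hom hG hcs
        rw [← hkG c hcs, ← h4, Finset.mul_sum, ← Finset.sum_sub_distrib]
        exact Finset.sum_congr rfl fun i _ => by ring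
      rw [h3]
      refine Finset.dvd_sum fun i _ => Dvd.dvd.mul_right ?_ _
      exact ⟨β (Sum.inl i), hβ (Sum.inl i)⟩
    obtain ⟨k, hk⟩ := h2
    rw [hk] at h1
    have h3 := hord _ k hGz h1
    rw [htm, hom_aeval hG, P.ord_mul (pow_ne_zero _ (pow_ne_zero _ ne)) hGz, h3, P.ord_pow,
      P.ord_pow]
    ring

end Pool.Agent.Y108.KC
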