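import Pool.Agent.Y192.KC.Stm
import Pool.Agent.Y108.KC.Ngt1

/-! # Covers with a one-parameter group are not of log general type -/

set_option autoImplicit false

namespace Pool.Agent.Y108.KC

open MvPolynomial FF Pool.Agent.W602.GT IntermediateField Pool.Agent.Y192.KC

theorem t_ngt : St_ngt := by
  intro n r X m hm hem hRed L _ _ t w hFF
  obtain ⟨l, hl, ⟨kG, hkG⟩, hH⟩ := hRed
  choose H S hFS hHom using hH
  choose kH hkH using hHom
  obtain ⟨δ, σ, h1, h2, h3, h4⟩ := core hm t w X.F X.d X.e X.G X.q X.hF X.hF0 X.he X.hG X.hG0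
    hem hFF.ne hFF.ind hFF.eqn hFF.gen l hl kG hkG H S hFS kH hkH
  refine not_log_gt δ h1 h2 h3 fun P hP hPσ hoff => ?_
  obtain ⟨h5, h6⟩ := h4 P hP hPσ
  have := hoff (P.ord (t 0)) (fun i => (h5 i).ge) ⟨0, rfl⟩
  rw [h6] at this
  exact lt_irrefl _ this

end Pool.Agent.Y108.KC
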