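import Pool.Agent.W602.GT.NG

/-! # Covers with a one-parameter group are not of log general type: algebra -/

set_option autoImplicit false

namespace Pool.Agent.Y108.KC

open MvPolynomial FF Pool.Agent.W602.GT

/-- factors of homogeneous polynomials are homogeneous (following `Chud.PD1`) -/
theorem homog_of_dvd {σ k : Type*} [Field k] [Finite σ] {F G : MvPolynomial σ k} {n : ℕ}
    (hF : F.IsHomogeneous n) (hF0 : F ≠ 0) (h : G ∣ F) : G.IsHomogeneous G.totalDegree := by
  obtain ⟨K, rfl⟩ := h
  have hG0 : G ≠ 0 := left_ne_zero_of_mul hF0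
  have hK0 : K ≠ 0 := right_ne_zero_of_mul hF0
  have hle : ∀ P : MvPolynomial σ k, P ≠ 0 → (P : MvPowerSeries σ k).order ≤ P.totalDegree := by
    intro P hP
    obtain ⟨d, hd⟩ := MvPolynomial.ne_zero_iff.1 hP
    have h1 : (P : MvPowerSeries σ k).order ≤ (d.degree : ℕ∞) :=
      MvPowerSeries.order_le (by simpa using hd)
    refine h1.trans ?_
    have h2 : d.degree ≤ P.totalDegree := by
      have := MvPolynomial.le_totalDegree (p := P) (s := d) (MvPolynomial.mem_support_iff.2 hd)
      simpa [Finsupp.degree_apply, Finsupp.sum] using this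
    exact_mod_cast h2
  have hmul : ((G * K : MvPolynomial σ k) : MvPowerSeries σ k).order =
      (G : MvPowerSeries σ k).order + (K : MvPowerSeries σ k).order := by
    rw [MvPolynomial.coe_mul, MvPowerSeries.order_mul]
  have hFo : (n : ℕ∞) ≤ ((G * K : MvPolynomial σ k) : MvPowerSeries σ k).order := by
    apply MvPowerSeries.nat_le_order
    intro d hd
    rw [MvPolynomial.coeff_coe]
    by_contra hne
    have := hF hne
    have h' : d.degree = n := by rw [← this, Finsupp.degree_eq_weight_one]; rfl
    omega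
  have hT : (G * K).totalDegree = n := hF.totalDegree hF0
  rw [MvPolynomial.totalDegree_mul_of_isDomain hG0 hK0] at hT
  have hGo := hle G hG0
  have hKo := hle K hK0
  rw [hmul] at hFo
  intro d hd
  have h1 : (G : MvPowerSeries σ k).order ≤ (d.degree : ℕ∞) :=
      MvPowerSeries.order_le (by simpa using hd)
  have h2 : d.degree ≤ G.totalDegree := by
      have := MvPolynomial.le_totalDegree (p := G) (s := d) (MvPolynomial.mem_support_iff.2 hd)
      simpa [Finsupp.degree_apply, Finsupp.sum] using this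
  have h3 : (n : ℕ∞) ≤ (d.degree : ℕ∞) + (K.totalDegree : ℕ∞) := hFo.trans (add_le_add h1 hKo)
  have h4 : n ≤ d.degree + K.totalDegree := by exact_mod_cast h3
  have h5 : d.degree = G.totalDegree := by omega
  rw [← h5, Finsupp.degree_eq_weight_one]
  rfl

theorem sum_of_hom {N d : ℕ} {A : MvPolynomial (Fin N) ℂ} (hA : A.IsHomogeneous d)
    {c : Fin N →₀ ℕ} (hc : c ∈ A.support) : ∑ i, c i = d := by
  have := hA (mem_support_iff.1 hc)
  rw [← this, Finsupp.weight_apply, Finsupp.sum_fintype _ _ (by simp)]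
  simp

section

variable {L : Type} [Field L] [Algebra ℂ L]

theorem hom_aeval {N d : ℕ} {A : MvPolynomial (Fin N) ℂ} (hA : A.IsHomogeneous d) (s : L)
    (x : Fin N → L) : aeval (fun i => s * x i) A = s ^ d * aeval x A := by
  rw [aeval_def, aeval_def, eval₂_eq', eval₂_eq', Finset.mul_sum]
  refine Finset.sum_congr rfl fun c hc => ?_
  have h1 : ∏ i, (s * x i) ^ c i = s ^ d * ∏ i, x i ^ c i := by
    rw [← sum_of_hom hA hc, ← Finset.prod_pow_eq_pow_sum, ← Finset.prod_mul_distrib]
    exact Finset.prod_congr rfl fun i _ => mul_pow _ _ _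
  rw [h1]; ring

/-- the dehomogenization does not vanish -/
theorem nz {n d m : ℕ} (hm : 0 < m) {A : MvPolynomial (Fin (n + 1)) ℂ} (hA : A.IsHomogeneous d)
    (hA0 : A ≠ 0) (y : Fin n → L) (hy : AlgebraicIndependent ℂ y) (z : Fin (n + 1) → L)
    (hz0 : z 0 = 1) (hz : ∀ i : Fin n, z i.succ = y i) : aeval (fun i => z i ^ m) A ≠ 0 := by
  classical
  intro h0
  obtain ⟨c0, hc0⟩ := MvPolynomial.ne_zero_iff.1 hA0
  have hc0s : c0 ∈ A.support := mem_support_iff.2 hc0
  let tl : (Fin (n + 1) →₀ ℕ) → (Fin n →₀ ℕ) := fun c => Finsupp.equivFunOnFinite.symm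
    (fun i : Fin n => m * c i.succ)
  set Q : MvPolynomial (Fin n) ℂ := ∑ c ∈ A.support, monomial (tl c) (A.coeff c) with hQ
  have h1 : aeval y Q = 0 := by
    rw [← h0, hQ, map_sum, aeval_def, eval₂_eq']
    refine Finset.sum_congr rfl fun c _ => ?_
    rw [aeval_monomial, Finsupp.prod_fintype _ _ (by simp), Fin.prod_univ_succ, hz0]
    simp only [one_pow, one_mul]
    congr 1
    refine Finset.prod_congr rfl fun i _ => ?_
    rw [hz, ← pow_mul]
    rfl
  have h2 : Q = 0 := by
    have := hy
    rw [algebraicIndependent_iff] at this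
    exact this Q h1
  apply hc0
  have h3 : Q.coeff (tl c0) = A.coeff c0 := by
    rw [hQ, coeff_sum, Finset.sum_eq_single c0]
    · rw [coeff_monomial, if_pos rfl]
    · intro c hc hne
      rw [coeff_monomial, if_neg]
      intro he
      apply hne
      have h4 : ∀ i : Fin n, c i.succ = c0 i.succ := by
        intro i
        have h5 := DFunLike.congr_fun he i
        change m * c i.succ = m * c0 i.succ at h5
        exact Nat.eq_of_mul_eq_mul_left hm h5
      have h6 : c 0 = c0 0 := by
        have h7 := sum_of_hom hA hc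
        have h8 := sum_of_hom hA hc0s
        rw [Fin.sum_univ_succ] at h7 h8
        rw [Finset.sum_congr rfl fun i _ => h4 i] at h7
        omega
      ext i
      refine Fin.cases h6 h4 i
    · intro h; exact absurd hc0s h
  rw [← h3, h2, coeff_zero]

/-! ### Eigenvectors of derivations -/

variable (D : Derivation ℂ L L)

def Eig (a : ℤ) (f : L) : Prop := D f = (a : L) * f

variable {D}

theorem Eig.one : Eig D 0 1 := by simp [Eig]

theorem Eig.const (c : ℂ) : Eig D 0 (algebraMap ℂ L c) := by simp [Eig]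

theorem Eig.mul {a b : ℤ} {f g : L} (hf : Eig D a f) (hg : Eig D b g) : Eig D (a + b) (f * g) := by
  unfold Eig at *
  rw [D.leibniz, hf, hg]
  simp only [smul_eq_mul]
  push_cast
  ring

theorem Eig.add {a : ℤ} {f g : L} (hf : Eig D a f) (hg : Eig D a g) : Eig D a (f + g) := by
  unfold Eig at *
  rw [map_add, hf, hg]; ring

theorem Eig.zero (a : ℤ) : Eig D a (0 : L) := by simp [Eig]

theorem Eig.inv {a : ℤ} {f : L} (hf : Eig D a f) : Eig D (-a) f⁻¹ := by
  unfold Eig at *
  by_cases h : f = 0
  · simp [h]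
  rw [D.leibniz_inv, hf]
  simp only [smul_eq_mul]
  push_cast
  field_simp

theorem Eig.pow {a : ℤ} {f : L} (hf : Eig D a f) (n : ℕ) : Eig D (n * a) (f ^ n) := by
  induction n with
  | zero => simpa using Eig.one
  | succ n ih =>
    have := ih.mul hf
    rw [← pow_succ] at this
    have h2 : ((n + 1 : ℕ) : ℤ) * a = n * a + a := by push_cast; ring
    rw [h2]; exact this

theorem Eig.zpow {a : ℤ} {f : L} (hf : Eig D a f) (n : ℤ) : Eig D (n * a) (f ^ n) := by
  cases n with
  | ofNat n => simpa using hf.pow n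
  | negSucc n =>
    rw [zpow_negSucc]
    have := (hf.pow (n + 1)).inv
    have h2 : Int.negSucc n * a = -(((n + 1 : ℕ) : ℤ) * a) := by
      rw [Int.negSucc_eq]; push_cast; ring
    rw [h2]; exact this

theorem Eig.prod {ι : Type*} (s : Finset ι) (a : ι → ℤ) (f : ι → L) (h : ∀ i ∈ s, Eig D (a i) (f i)) :
    Eig D (∑ i ∈ s, a i) (∏ i ∈ s, f i) := by
  classical
  induction s using Finset.induction_on with
  | empty => simpa using Eig.one
  | insert i s hi ih =>
    rw [Finset.sum_insert hi, Finset.prod_insert hi]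
    exact (h i (Finset.mem_insert_self _ _)).mul
      (ih fun j hj => h j (Finset.mem_insert_of_mem hj))

theorem Eig.sum {ι : Type*} (s : Finset ι) {a : ℤ} (f : ι → L) (h : ∀ i ∈ s, Eig D a (f i)) :
    Eig D a (∑ i ∈ s, f i) := by
  classical
  induction s using Finset.induction_on with
  | empty => simpa using Eig.zero a
  | insert i s hi ih =>
    rw [Finset.sum_insert hi]
    exact (h i (Finset.mem_insert_self _ _)).add
      (ih fun j hj => h j (Finset.mem_insert_of_mem hj))

theorem Eig.aeval {N : ℕ} {x : Fin N → L} {a : Fin N → ℤ} (hx : ∀ i, Eig D (a i) (x i))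
    {A : MvPolynomial (Fin N) ℂ} {g : ℤ} (hA : ∀ c ∈ A.support, ∑ i, a i * c i = g) :
    Eig D g (MvPolynomial.aeval x A) := by
  rw [aeval_def, eval₂_eq']
  refine Eig.sum _ _ fun c hc => ?_
  have h1 := (Eig.const (D := D) (A.coeff c)).mul
    (Eig.prod Finset.univ (fun i => (c i : ℤ) * a i) (fun i => x i ^ c i)
      fun i _ => (hx i).pow (c i))
  have h2 : 0 + ∑ i, (c i : ℤ) * a i = g := by
    rw [zero_add, ← hA c hc]
    exact Finset.sum_congr rfl fun i _ => mul_comm _ _
  rw [h2] at h1
  exact h1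

end

end Pool.Agent.Y108.KC
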